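import Mathlib
import Pool.Agent.Q65.TransD

/-!
# MP_f7849a_an, Q1: the `λ`-derivative can be negative

`E3`, `S2`, `sig` (surface measure on the unit sphere), `exitD` (first-exit distance) and `IsSol`
(bounded measurable solution of the integral equation) are defined in `Pool/Agent/Q65/TransA.lean`.
-/

namespace Pool.Agent.Results.MP_f7849a_an.NegativeDerivative

open Q65.Trans MeasureTheory Set

/-- The assertion of Q1: for every nonempty bounded open set and every family of bounded measurable
solutions, the derivative in `lam` at `1` is nonnegative at every phase-space point. -/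
def Q1 : Prop :=
  ∀ V : Set E3, V.Nonempty → IsOpen V → Bornology.IsBounded V →
    ∀ M : ℝ → E3 → S2 → ℝ, (∀ lam, 0 < lam → IsSol V lam (M lam)) →
      ∀ r ∈ V, ∀ ω : S2, 0 ≤ deriv (fun lam => M lam r ω) 1

/-- Q1 is false. There are a nonempty bounded open set `V`, a phase-space point `(r, ω)` and, for
every `lam > 0`, a (unique) bounded measurable solution `M lam` such that `lam ↦ M lam r ω` is
differentiable at `1` with a negative derivative. -/
theorem result :
    ¬ Q1 ∧
    ∃ (V : Set E3) (r : E3) (ω : S2) (M : ℝ → E3 → S2 → ℝ) (d : ℝ),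
      V.Nonempty ∧ IsOpen V ∧ Bornology.IsBounded V ∧ r ∈ V ∧
      (∀ lam, 0 < lam → IsSol V lam (M lam)) ∧
      (∀ lam, 0 < lam → ∀ N, IsSol V lam N → ∀ s ∈ V, ∀ θ, N s θ = M lam s θ) ∧
      HasDerivAt (fun lam => M lam r ω) d 1 ∧ d < 0 := by
  refine ⟨?_, main⟩
  intro h
  obtain ⟨V, r, ω, M, d, h1, h2, h3, h4, h5, -, h7, h8⟩ := main
  have := h V h1 h2 h3 M h5 r h4 ω
  rw [h7.deriv] at this
  linarith

end Pool.Agent.Results.MP_f7849a_an.NegativeDerivative
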